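import Mathlib

/-!
# Synchronization games with bounded replies: reset thresholds
-/

set_option autoImplicit false

namespace Pool.Agent.Q201.SG

/-- the action of words on states -/
def act {Q A : Type} (δ : Q → A → Q) (q : Q) (w : List A) : Q := w.foldl δ q

/-- `w` is a reset word: `Q · w` has exactly one element -/
def Reset {Q A : Type} (δ : Q → A → Q) (w : List A) : Prop :=
  Nat.card (Set.range fun q => act δ q w) = 1

/-- the word played after the complete rounds with Bob's replies `h` (most recent first), when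
Alice follows the strategy `σ` -/
def pos {A : Type} (σ : List (List A) → A) : List (List A) → List A
  | [] => []
  | u :: h => pos σ h ++ [σ h] ++ u

theorem pos_cons {A : Type} (σ : List (List A) → A) (u : List A) (h : List (List A)) :
    pos σ (u :: h) = pos σ h ++ [σ h] ++ u := rfl

/-- the first `i` replies of Bob (most recent first) -/
def hist {A : Type} (β : ℕ → List A) : ℕ → List (List A)
  | 0 => []
  | i + 1 => β i :: hist β i

/-- `δ` is an `A_k`-automaton: Alice has a strategy `σ` (her next letter as a function of Bob's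
replies so far) such that against all replies of length at most `k` the word played is at some
stage (after a complete round or after a letter of Alice) a reset word -/
def IsA {Q A : Type} (δ : Q → A → Q) (k : ℕ) : Prop :=
  ∃ σ : List (List A) → A, ∀ β : ℕ → List A, (∀ i, (β i).length ≤ k) →
    ∃ i, Reset δ (pos σ (hist β i)) ∨ Reset δ (pos σ (hist β i) ++ [σ (hist β i)])

/-- the reset threshold -/
noncomputable def rt {Q A : Type} (δ : Q → A → Q) : ℕ :=
  sInf {m | ∃ w, Reset δ w ∧ w.length = m}

variable {Q A : Type} {δ : Q → A → Q}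

theorem act_append (q : Q) (u v : List A) : act δ q (u ++ v) = act δ (act δ q u) v :=
  List.foldl_append

theorem act_snoc (q : Q) (u : List A) (a : A) : act δ q (u ++ [a]) = δ (act δ q u) a := by
  rw [act_append]
  rfl

theorem reset_iff [Nonempty Q] {w : List A} : Reset δ w ↔ ∀ p q, act δ p w = act δ q w := by
  unfold Reset
  rw [Nat.card_eq_one_iff_unique]
  constructor
  · rintro ⟨h, -⟩ p q
    have := h.elim ⟨act δ p w, p, rfl⟩ ⟨act δ q w, q, rfl⟩
    exact congrArg Subtype.val this
  · intro h
    refine ⟨⟨?_⟩, ?_⟩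
    · rintro ⟨_, p, rfl⟩ ⟨_, q, rfl⟩
      exact Subtype.ext (h p q)
    · obtain ⟨p⟩ := ‹Nonempty Q›
      exact ⟨⟨_, p, rfl⟩⟩

/-- congruences -/
def Cong (δ : Q → A → Q) (θ : Setoid Q) : Prop := ∀ a x y, θ x y → θ (δ x a) (δ y a)

theorem Cong.act {θ : Setoid Q} (h : Cong δ θ) {x y : Q} (hxy : θ x y) (w : List A) :
    θ (SG.act δ x w) (SG.act δ y w) := by
  induction w using List.reverseRecOn with
  | nil => exact hxy
  | append_singleton w a ih =>
    rw [act_snoc, act_snoc]
    exact h a _ _ ih

/-- pairs which stay mergeable (modulo `θ`) for `j` steps -/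
def C (δ : Q → A → Q) (θ : Setoid Q) (j : ℕ) (x y : Q) : Prop :=
  ∀ w : List A, w.length ≤ j → ∃ a, θ (act δ x (w ++ [a])) (act δ y (w ++ [a]))

/-- the equivalence relation generated by these pairs -/
def E (δ : Q → A → Q) (θ : Setoid Q) (j : ℕ) : Setoid Q := Relation.EqvGen.setoid (C δ θ j)

theorem le_E [Nonempty A] {θ : Setoid Q} (h : Cong δ θ) (j : ℕ) : θ ≤ E δ θ j := by
  intro x y hxy
  refine Relation.EqvGen.rel _ _ fun w _ => ?_
  obtain ⟨a⟩ := ‹Nonempty A›
  exact ⟨a, h.act hxy _⟩

theorem E_mono {θ : Setoid Q} {i j : ℕ} (h : i ≤ j) : E δ θ j ≤ E δ θ i := by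
  intro x y hxy
  induction hxy with
  | rel x y h' => exact Relation.EqvGen.rel _ _ fun w hw => h' w (hw.trans h)
  | refl x => exact Setoid.refl' _ _
  | symm x y _ ih => exact Setoid.symm' _ ih
  | trans x y z _ _ ih1 ih2 => exact Setoid.trans' _ ih1 ih2

theorem E_step {θ : Setoid Q} {j : ℕ} {x y : Q} (h : E δ θ (j + 1) x y) (a : A) :
    E δ θ j (δ x a) (δ y a) := by
  induction h with
  | rel x y h =>
    refine Relation.EqvGen.rel _ _ fun w hw => ?_
    obtain ⟨b, hb⟩ := h (a :: w) (by simpa using hw)
    exact ⟨b, hb⟩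
  | refl x => exact Setoid.refl' _ _
  | symm x y _ ih => exact Setoid.symm' _ ih
  | trans x y z _ _ ih1 ih2 => exact Setoid.trans' _ ih1 ih2

/-- the number of classes -/
noncomputable def N (θ : Setoid Q) : ℕ := Nat.card (Quotient θ)

theorem N_lt [Finite Q] {s t : Setoid Q} (h : s ≤ t) {x y : Q} (h1 : ¬ s x y) (h2 : t x y) :
    N t < N s := by
  classical
  have := Fintype.ofFinite Q
  have : Fintype (Quotient s) := Fintype.ofFinite _
  have : Fintype (Quotient t) := Fintype.ofFinite _
  unfold N
  rw [Nat.card_eq_fintype_card, Nat.card_eq_fintype_card]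
  refine Fintype.card_lt_of_surjective_not_injective
    (Quotient.map' id fun a b hab => h hab : Quotient s → Quotient t) ?_ ?_
  · intro q
    induction q using Quotient.inductionOn with
    | h q => exact ⟨Quotient.mk _ q, rfl⟩
  · intro hinj
    have : (Quotient.mk s x) = Quotient.mk s y := hinj (Quotient.sound h2)
    exact h1 (Quotient.exact this)

theorem N_le [Finite Q] {s t : Setoid Q} (h : s ≤ t) : N t ≤ N s := by
  by_cases hst : ∃ x y, ¬ s x y ∧ t x y
  · obtain ⟨x, y, h1, h2⟩ := hst
    exact (N_lt h h1 h2).le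
  · push Not at hst
    have : s = t := le_antisymm h fun x y hxy => by
      by_contra hcon
      exact hst x y hcon hxy
    rw [this]

theorem N_pos [Finite Q] [Nonempty Q] (s : Setoid Q) : 0 < N s := by
  have : Nonempty (Quotient s) := ⟨Quotient.mk s (Classical.arbitrary Q)⟩
  exact Nat.card_pos

theorem eq_of_N_le [Finite Q] {s t : Setoid Q} (h : s ≤ t) (h' : N s ≤ N t) : s = t := by
  refine le_antisymm h fun x y hxy => ?_
  by_contra hcon
  have := N_lt h hcon hxy
  omega

/-- Bob's strategy -/
theorem game [Nonempty Q] {k : ℕ} (hA : IsA δ k) {θ : Setoid Q}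
    {p q : Q} (hpq : ¬ θ p q) : ∃ x y, ¬ θ x y ∧ C δ θ k x y := by
  by_contra hcon
  push Not at hcon
  have h1 : ∀ x y, ∃ u : List A, u.length ≤ k ∧
      (¬ θ x y → ∀ a, ¬ θ (act δ x (u ++ [a])) (act δ y (u ++ [a]))) := by
    intro x y
    by_cases hxy : θ x y
    · exact ⟨[], by simp, fun h => absurd hxy h⟩
    · have := hcon x y hxy
      unfold C at this
      push Not at this
      obtain ⟨u, hu, hu'⟩ := this
      exact ⟨u, hu, fun _ => hu'⟩
  choose f hf1 hf2 using h1
  obtain ⟨σ, hσ⟩ := hA
  set x₀ := act δ p (f p q) with hx₀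
  set y₀ := act δ q (f p q) with hy₀
  let c : List (List A) → List A := fun h =>
    f (act δ x₀ (pos σ h ++ [σ h])) (act δ y₀ (pos σ h ++ [σ h]))
  let H : ℕ → List (List A) := fun i => Nat.rec [] (fun _ h => c h :: h) i
  have hH0 : H 0 = [] := rfl
  have hH1 : ∀ i, H (i + 1) = c (H i) :: H i := fun _ => rfl
  have hhist : ∀ i, hist (fun i => c (H i)) i = H i := by
    intro i
    induction i with
    | zero => rfl
    | succ i ih =>
      rw [hH1]
      unfold hist
      rw [ih]
  have hinv : ∀ i, ∀ a, ¬ θ (act δ x₀ (pos σ (H i) ++ [a])) (act δ y₀ (pos σ (H i) ++ [a])) := by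
    intro i
    induction i with
    | zero =>
      intro a
      have := hf2 p q hpq a
      rw [act_append, act_append] at this
      exact this
    | succ i ih =>
      intro a
      have := hf2 _ _ (ih (σ (H i))) a
      rw [hH1]
      have e : pos σ (c (H i) :: H i) ++ [a] =
          (pos σ (H i) ++ [σ (H i)]) ++ (c (H i) ++ [a]) := by
        rw [pos_cons, List.append_assoc]
      rw [e, act_append, act_append (u := pos σ (H i) ++ [σ (H i)])]
      exact this
  obtain ⟨i, hi⟩ := hσ (fun i => c (H i)) fun i => hf1 _ _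
  rw [hhist] at hi
  rcases hi with hi | hi
  · rw [reset_iff] at hi
    apply hinv i (σ (H i))
    rw [act_snoc, act_snoc, hi x₀ y₀]
  · rw [reset_iff] at hi
    apply hinv i (σ (H i))
    rw [hi x₀ y₀]

theorem exists_stable {e : ℕ → ℕ} {m : ℕ} (h0 : e 0 < m) (h1 : ∀ i, 1 ≤ e i) :
    ∃ t, t + 2 ≤ m ∧ e t ≤ e (t + 1) := by
  by_contra hcon
  push Not at hcon
  have key : ∀ i, i + 1 ≤ m → e i + i + 1 ≤ m := by
    intro i
    induction i with
    | zero => intro _; omega
    | succ i ih =>
      intro hi
      have := hcon i (by omega)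
      have := ih (by omega)
      omega
  have := key (m - 1) (by omega)
  have := h1 (m - 1)
  omega

/-- the main induction -/
theorem main [Finite Q] [Nonempty Q] [Nonempty A] {k : ℕ} (hA : IsA δ k) (m : ℕ) :
    ∀ θ : Setoid Q, Cong δ θ → N θ = m → 2 * m ≤ k →
      ∃ w : List A, w.length + 1 ≤ m ∧ ∀ p q, θ (act δ p w) (act δ q w) := by
  induction m using Nat.strong_induction_on with
  | _ m ih =>
    intro θ hθ hm hk
    by_cases hall : ∀ p q, θ p q
    · exact ⟨[], by have := N_pos θ; simp; omega, fun p q => hall p q⟩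
    push Not at hall
    obtain ⟨p, q, hpq⟩ := hall
    obtain ⟨x, y, hxy, hC⟩ := game hA hpq
    have hlt : N (E δ θ k) < m := by
      rw [← hm]
      exact N_lt (le_E hθ k) hxy (Relation.EqvGen.rel _ _ hC)
    obtain ⟨t, ht, ht'⟩ := exists_stable (e := fun i => N (E δ θ (k - i))) (m := m) hlt
      fun i => N_pos _
    have hEq : E δ θ (k - t) = E δ θ (k - (t + 1)) :=
      eq_of_N_le (E_mono (by omega)) ht'
    set j := k - (t + 1) with hj
    have hj1 : k - t = j + 1 := by omega
    rw [hj1] at hEq
    have hcong : Cong δ (E δ θ j) := by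
      intro a x y hxy
      rw [← hEq] at hxy
      exact E_step hxy a
    have hm' : N (E δ θ j) < m := by
      have : N (E δ θ j) ≤ N (E δ θ k) := N_le (E_mono (by omega))
      omega
    obtain ⟨w', hw1, hw2⟩ := ih _ hm' (E δ θ j) hcong rfl (by omega)
    have key : ∀ r, ∀ w : List A, N (E δ θ j ⊓ θ.comap fun q => act δ q w) = r →
        w.length + r ≤ m →
        ∃ w₂ : List A, w₂.length + N (E δ θ j) ≤ m ∧
          ∀ x y, E δ θ j x y → θ (act δ x w₂) (act δ y w₂) := by
      intro r
      induction r using Nat.strong_induction_on with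
      | _ r ihr =>
        intro w hr hwr
        by_cases hdone : ∀ x y, C δ θ j x y → θ (act δ x w) (act δ y w)
        · have h3 : ∀ x y, E δ θ j x y → θ (act δ x w) (act δ y w) := by
            intro x y hxy
            induction hxy with
            | rel x y h => exact hdone x y h
            | refl x => exact Setoid.refl' _ _
            | symm x y _ ih => exact Setoid.symm' _ ih
            | trans x y z _ _ ih1 ih2 => exact Setoid.trans' _ ih1 ih2
          refine ⟨w, ?_, h3⟩
          have h4 : E δ θ j ⊓ (θ.comap fun q => act δ q w) = E δ θ j :=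
            inf_eq_left.2 fun x y hxy => h3 x y hxy
          rw [h4] at hr
          omega
        · push Not at hdone
          obtain ⟨x, y, h1, h2⟩ := hdone
          have hlt2 : N (E δ θ j) < r := by
            rw [← hr]
            refine N_lt inf_le_left (x := x) (y := y) (fun h => h2 h.2) ?_
            exact Relation.EqvGen.rel _ _ h1
          have hpos := N_pos (E δ θ j)
          obtain ⟨a, ha⟩ := h1 w (by omega)
          have hle : (E δ θ j ⊓ θ.comap fun q => act δ q w) ≤
              (E δ θ j ⊓ θ.comap fun q => act δ q (w ++ [a])) := by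
            intro p q hpq
            refine ⟨hpq.1, ?_⟩
            show θ (act δ p (w ++ [a])) (act δ q (w ++ [a]))
            rw [act_snoc, act_snoc]
            exact hθ a _ _ hpq.2
          have hlt3 : N (E δ θ j ⊓ θ.comap fun q => act δ q (w ++ [a])) < r := by
            rw [← hr]
            exact N_lt hle (x := x) (y := y) (fun h => h2 h.2)
              ⟨Relation.EqvGen.rel _ _ h1, ha⟩
          refine ihr _ hlt3 (w ++ [a]) rfl ?_
          rw [List.length_append, List.length_singleton]
          omega
    obtain ⟨w₂, hw3, hw4⟩ := key _ [] rfl (by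
      have : (E δ θ j ⊓ θ.comap fun q => act δ q []) = θ :=
        inf_eq_right.2 (le_E hθ j)
      rw [this, List.length_nil]
      omega)
    refine ⟨w' ++ w₂, ?_, fun p q => ?_⟩
    · rw [List.length_append]
      omega
    · rw [act_append, act_append]
      exact hw4 _ _ (hw2 p q)

theorem exists_reset [Finite Q] [Nonempty Q] [Nonempty A] {k : ℕ} (hA : IsA δ k)
    (hk : 2 * Nat.card Q ≤ k) : ∃ w : List A, Reset δ w ∧ w.length + 1 ≤ Nat.card Q := by
  have hN : N (⊥ : Setoid Q) = Nat.card Q := by
    unfold N
    refine Nat.card_congr (Equiv.ofBijective (Quotient.mk (⊥ : Setoid Q)) ⟨?_, ?_⟩).symm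
    · intro x y hxy
      exact Quotient.exact hxy
    · intro q
      induction q using Quotient.inductionOn with
      | h q => exact ⟨q, rfl⟩
  obtain ⟨w, hw1, hw2⟩ := main hA (Nat.card Q) ⊥ (fun a x y h => by
    have : x = y := h
    rw [this]) hN hk
  exact ⟨w, reset_iff.2 fun p q => hw2 p q, hw1⟩

end Pool.Agent.Q201.SG
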